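import Pool.Agent.H17.D1.RwL
import Pool.Agent.H64.D1.Lit
import Pool.Agent.H48.T4X.Own

/-!
# The digits of one system exist: `dgt : DgtStmt`
-/

set_option autoImplicit false

namespace Pool.D117

open Finset Real MvPolynomial
open Pool.Agent.H49.Ent Pool.Agent.H32.Dense
open Pool.STK hiding pr2
open Pool.KA Pool.KSAT Pool.K2S Pool.PB Pool.S6C
open Pool.GEN Pool.CHT Pool.CHX Pool.LA91 Pool.RCD Pool.V0F
open Pool.T4N (Frm FrmP fX fV ClE)
open Pool.T4G (NrW fl_wall)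
open Pool.T4X (rep_z rep_y x_pt)
open Pool.D164 (Dgt DgtStmt yL)

variable {m J : ℕ}

/-- The positions of `c 0` have the same digits. -/
theorem yl_near {F : Fam m J} {c : ℕ → Fin m} {lP k : ℕ} (h6 : 6 ≤ lP) {ω ω' : F.Ω}
    (hω : ¬ NrW 2 (yL F c lP k ω)) (h : |F.x ω (c 0) - F.x ω' (c 0)| ≤ 5 / 2 ^ lP) :
    ⌊yL F c lP k ω⌋ = ⌊yL F c lP k ω'⌋ := by
  refine fl_wall hω ?_
  have e1 : yL F c lP k ω - yL F c lP k ω' =
      (2 : ℝ) ^ (lP - 6) * (F.x ω (c 0) - F.x ω' (c 0)) := by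
    unfold Pool.D164.yL
    ring
  have e2 : (2 : ℝ) ^ lP = 2 ^ (lP - 6) * 64 := by
    have : (64 : ℝ) = 2 ^ 6 := by norm_num
    rw [this, ← pow_add, Nat.sub_add_cancel h6]
  rw [e1, abs_mul, abs_of_pos (by positivity)]
  refine (mul_le_mul_of_nonneg_left h (by positivity)).trans_lt ?_
  rw [e2]
  have e3 : (2 : ℝ) ^ (lP - 6) * (5 / (2 ^ (lP - 6) * 64)) = 5 / 64 := by
    field_simp
  rw [e3]
  norm_num

/-- The heights of two samples with one exact point. -/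
theorem fx_pt {F : Fam m J} {c : ℕ → Fin m} {B : F.Ω → Prop} {w P : Fin 3 → ℕ} {Fr : Frm F}
    (hF : FrmP F c w P B Fr) {ω ω' : F.Ω} (hω : B ω) (hω' : B ω') (e : ptr F J ω = ptr F J ω')
    {i : Fin 3} {g : ℕ} (hraw : ∀ o, (2 : ℝ) ^ g *
      (8 * |coeff (Finsupp.single o 1) (Fr.G i (Fr.z' i (slam F (w i) ω)))|) ≤ 2 ^ J)
    (hg : g + 8 ≤ J) : |2 ^ g * fX F c w Fr ω i - 2 ^ g * fX F c w Fr ω' i| ≤ 1 := by
  have hT : F.T ω = F.T ω' := (Prod.ext_iff.1 (Prod.ext_iff.1 e).2).1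
  have hG : Fr.G i (Fr.z' i (slam F (w i) ω)) = Fr.G i (Fr.z' i (slam F (w i) ω')) := by
    rw [← (hF.lab i).cls ω hω, ← (hF.lab i).cls ω' hω', e]
  have h1 := fx_near hF hT hG (g := g + 3) (fun o => by
    refine le_trans (le_of_eq ?_) (hraw o)
    rw [pow_add]
    ring) (fun l _ => x_pt e (c l))
  have h2 : (2 : ℝ) ^ g * |F.x ω (c (1 + i)) - F.x ω' (c (1 + i))| ≤ 1 / 256 := by
    refine (mul_le_mul_of_nonneg_left (x_pt e (c (1 + i))) (by positivity)).trans ?_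
    rw [mul_one_div, div_le_div_iff₀ (by positivity) (by norm_num), one_mul]
    have : (256 : ℝ) = 2 ^ 8 := by norm_num
    rw [this, ← pow_add]
    exact pow_le_pow_right₀ (by norm_num) hg
  have h3 : (2 : ℝ) ^ g * |(fX F c w Fr ω i - fX F c w Fr ω' i) -
      (F.x ω (c (1 + i)) - F.x ω' (c (1 + i)))| ≤ 3 / 8 := by
    have e1 : (2 : ℝ) ^ (g + 3) = 2 ^ g * 8 := by
      rw [pow_add]
      norm_num
    rw [e1] at h1
    linarith
  rw [← mul_sub, abs_mul, abs_of_pos (by positivity : (0 : ℝ) < 2 ^ g)]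
  have h4 : |fX F c w Fr ω i - fX F c w Fr ω' i| ≤ |F.x ω (c (1 + i)) - F.x ω' (c (1 + i))| +
      |(fX F c w Fr ω i - fX F c w Fr ω' i) - (F.x ω (c (1 + i)) - F.x ω' (c (1 + i)))| := by
    have := abs_add_le (F.x ω (c (1 + i)) - F.x ω' (c (1 + i)))
      ((fX F c w Fr ω i - fX F c w Fr ω' i) - (F.x ω (c (1 + i)) - F.x ω' (c (1 + i))))
    rw [add_sub_cancel] at this
    exact this
  have h5 := mul_le_mul_of_nonneg_left h4 (by positivity : (0 : ℝ) ≤ 2 ^ g)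
  rw [mul_add] at h5
  linarith

/-- The record is closed. -/
theorem cR_cl2' (F : Fam m J) (B : F.Ω → Prop) (w : ℝ) :
    Cl2 (ptr F J) (vg w J F) B (cR F B w) := by
  refine ⟨?_, ?_⟩
  · choose φ hφ using fun D : ClE F B w => D.2.1
    exact ⟨fun x D => φ D x, fun ω hω => funext fun D => hφ D ω hω⟩
  · choose φ hφ using fun D : ClE F B w => D.2.2
    exact ⟨fun x D => φ D x, fun ω hω => funext fun D => hφ D ω hω⟩

/-- **The digits exist.** -/
theorem dgt : DgtStmt := by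
  intro m J F c B w P Fr hF xa g lP k hk hoff h6 hlP h8 hraw hg
  classical
  obtain ⟨z, hz⟩ := rep_z B (fun ω => ptr F J ω)
    (fun ω (i : Fin 2) => 2 ^ g i.castSucc * fX F c w Fr ω i.castSucc)
    (fun ω ω' hω hω' e i => fx_pt hF hω hω' e (hraw ω hω i.castSucc) (hg i.castSucc))
  obtain ⟨N, hN⟩ := rep_z B (fun ω => ptr F J ω)
    (fun ω (_ : Fin 1) => 2 ^ g 2 * fX F c w Fr ω 2)
    (fun ω ω' hω hω' e i => fx_pt hF hω hω' e (hraw ω hω 2) (hg 2))
  have hne : Nonempty F.Ω := by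
    by_contra hcon
    rw [not_nonempty_iff] at hcon
    have h1 := F.isLaw.sum_one
    rw [Finset.univ_eq_empty, Finset.sum_empty] at h1
    exact zero_ne_one h1
  obtain ⟨Y0, hY0⟩ := rep_y B (fun ω => ptr F J ω)
    (fun ω => (⌊yL F c lP k ω⌋, (cR F B xa ω, F.W ω)))
    ⟨(0, (fun _ => True, (0, F.Z hne.some)))⟩ (fun ω ω' hω hω' e => by
      obtain ⟨f, hf⟩ := (cR_cl2' F B xa).1
      refine Prod.ext ?_ (Prod.ext ?_ ?_)
      · refine yl_near h6 (hoff ω hω) ((x_pt e (c 0)).trans ?_)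
        rw [div_le_div_iff₀ (by positivity) (by positivity), one_mul]
        have h1 : (2 : ℝ) ^ lP ≤ 2 ^ J := pow_le_pow_right₀ (by norm_num) hlP
        have h2 : (0 : ℝ) < 2 ^ J := by positivity
        linarith
      · show cR F B xa ω = cR F B xa ω'
        have e' : ptr F J ω = ptr F J ω' := e
        rw [hf ω hω, hf ω' hω', e']
      · exact (Prod.ext_iff.1 e).2)
  exact ⟨z, N, Y0, ⟨hk, hoff, hz, hN, hY0⟩⟩

end Pool.D117
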