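import Pool.Agent.H17.D1.Dgt
import Pool.Agent.H64.D1.Law

/-!
# The records of one system: `rec : RecStmt`
-/

set_option autoImplicit false

namespace Pool.D117

open Finset Real MvPolynomial
open Pool.Agent.H49.Ent Pool.Agent.H32.Dense
open Pool.STK hiding pr2
open Pool.KA Pool.KSAT Pool.K2S Pool.PB Pool.S6C
open Pool.GEN Pool.CHT Pool.CHX Pool.LA91 Pool.RCD Pool.V0F
open Pool.T4N (Frm FrmP fX fV fXs fVs cYp cR1 ClE cR1_eq)
open Pool.T4G (NrW fl_wall AffX wD wN wP)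
open Pool.T4X (rep_z rep_y x_pt x_cy five_le T_of near_fl' t_T1)
open Pool.T4E (vtf)
open Pool.TIC (tG wS)
open Pool.D164 (Dgt RecStmt yL NatO NatE nat_x nat_v CH_vosc cB)

variable {m J : ℕ}

/-- The oscillation of a floor. -/
theorem osc_fl {x y D : ℝ} (h : |x - y| ≤ D) : |((⌊x⌋ : ℤ) : ℝ) - (⌊y⌋ : ℤ)| ≤ D + 1 := by
  have h1 := Pool.EXW.abs_floor_sub x y
  push_cast at h1
  linarith

/-- The oscillation of a quotient. -/
theorem osc_dv {a b : ℤ} {q : ℕ} {D : ℝ} (h : |(a : ℝ) - b| ≤ D * 2 ^ q) :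
    |((a / 2 ^ q : ℤ) : ℝ) - (b / 2 ^ q : ℤ)| ≤ D + 1 := by
  have p : (0 : ℤ) < 2 ^ q := by positivity
  have pr : (0 : ℝ) < 2 ^ q := by positivity
  have h1 := Int.emod_add_mul_ediv a (2 ^ q)
  have h2 := Int.emod_add_mul_ediv b (2 ^ q)
  have h3 := Int.emod_nonneg a p.ne'
  have h4 := Int.emod_nonneg b p.ne'
  have h5 := Int.emod_lt_of_pos a p
  have h6 := Int.emod_lt_of_pos b p
  have r1 : ((a % 2 ^ q : ℤ) : ℝ) + 2 ^ q * ((a / 2 ^ q : ℤ) : ℝ) = a := by exact_mod_cast h1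
  have r2 : ((b % 2 ^ q : ℤ) : ℝ) + 2 ^ q * ((b / 2 ^ q : ℤ) : ℝ) = b := by exact_mod_cast h2
  have r3 : (0 : ℝ) ≤ ((a % 2 ^ q : ℤ) : ℝ) := by exact_mod_cast h3
  have r4 : (0 : ℝ) ≤ ((b % 2 ^ q : ℤ) : ℝ) := by exact_mod_cast h4
  have r5 : ((a % 2 ^ q : ℤ) : ℝ) < 2 ^ q := by exact_mod_cast h5
  have r6 : ((b % 2 ^ q : ℤ) : ℝ) < 2 ^ q := by exact_mod_cast h6
  rw [abs_le] at h ⊢
  obtain ⟨h7, h8⟩ := h
  constructor
  · by_contra hcon
    push Not at hcon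
    have := mul_lt_mul_of_pos_left hcon pr
    nlinarith
  · by_contra hcon
    push Not at hcon
    have := mul_lt_mul_of_pos_left hcon pr
    nlinarith

/-- **The records of one system.** -/
theorem recS : RecStmt := by
  intro m J F c sn B w P Fr b xa ε R μ W hB hF hn hε hμ hxa hxb hb1 hw g q lP lL k z N Y0 hD h6 hlP
    hg1 hg2 hg3 hg4 hg5
  classical
  have hJ0 : (0 : ℝ) ≤ J := Nat.cast_nonneg J
  have haJ : ⌊xa * (J : ℝ)⌋₊ ≤ J := Nat.floor_le_of_le (by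
    calc xa * (J : ℝ) ≤ 1 * J := mul_le_mul_of_nonneg_right (by linarith) hJ0
      _ = J := one_mul _)
  have hq : IsLaw (cB F B) := isLaw_cond F.isLaw hB
  have hqB : ∀ ω, 0 < cB F B ω → B ω := fun ω hω => Pool.NFT33.of_condp hω
  obtain ⟨a, ha⟩ : ∃ a, a = ⌊xa * (J : ℝ)⌋₊ := ⟨_, rfl⟩
  have hff := hF.aff hw haJ (cB F B)
  rw [← ha] at haJ hw hlP hg4 hg5 hff ⊢
  obtain ⟨V, zn, zn', Gn, kan, aln, ben, gan, pyn, hn⟩ := hn
  -- the code of `b`
  have hcl : Cl2 (ptr F J) (vg b J F) B (fun ω => zn' (slam F ⌊b * J⌋₊ ω)) :=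
    ⟨⟨zn, fun ω hω => (hn.cls ω hω).symm⟩, ⟨zn', fun ω _ => rfl⟩⟩
  have hcode : ∀ ω ω', cR F B b ω = cR F B b ω' →
      zn' (slam F ⌊b * J⌋₊ ω) = zn' (slam F ⌊b * J⌋₊ ω') := fun ω ω' e =>
    Pool.NS95.cR_cl F B b hcl e
  -- the positions of `c 0`
  have hx0 : ∀ ω ω', vtf F a ω = vtf F a ω' →
      cYp c lP lL a (slam F a ω) = cYp c lP lL a (slam F a ω') →
      |F.x ω (c 0) - F.x ω' (c 0)| ≤ 5 / 2 ^ lP := fun ω ω' e1 e2 => by
    refine (x_cy haJ e1 e2).trans ?_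
    have h1 := five_le hlP
    have e3 : (5 : ℝ) / 2 ^ lP = 1 / 2 ^ lP + 4 / 2 ^ lP := by ring
    linarith
  -- the heights
  have hhx : ∀ ω ω', B ω → B ω' → cR F B b ω = cR F B b ω' → F.T ω = F.T ω' →
      cYp c lP lL a (slam F a ω) = cYp c lP lL a (slam F a ω') → ∀ i : Fin 3,
      (2 : ℝ) ^ g i * |fX F c w Fr ω i - fX F c w Fr ω' i| ≤
        (2 : ℝ) ^ g i * (4 * 2 ^ ((2 * ε - sn (1 + i) b) * J)) + 5 := by
    intro ω ω' hω hω' e1 e2 e3 i
    have h1 := nat_x hn hε hω hω' (hcode ω ω' e1) e2 i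
    have h2 := hx0 ω ω' (by unfold Pool.T4E.vtf; rw [e2]) e3
    refine (mul_le_mul_of_nonneg_left h1 (by positivity)).trans ?_
    rw [mul_add]
    refine add_le_add le_rfl ?_
    rw [← mul_assoc]
    calc (2 : ℝ) ^ g i * 2 ^ (W i * J) * |F.x ω (c 0) - F.x ω' (c 0)| ≤ 2 ^ lP * (5 / 2 ^ lP) :=
          mul_le_mul (hg2 i) h2 (abs_nonneg _) (by positivity)
      _ = 5 := by field_simp
  -- the velocities
  have hhv : ∀ ω ω', B ω → B ω' → cR F B b ω = cR F B b ω' →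
      cYp c lP lL a (slam F a ω) = cYp c lP lL a (slam F a ω') → ∀ i : Fin 3,
      (2 : ℝ) ^ g i / 2 ^ a * |fV F c w Fr ω i - fV F c w Fr ω' i| ≤
        4 * 2 ^ (2 * ε * J + ((g i : ℝ) - a + (b - sn (1 + i) b) * J)) + 4 := by
    intro ω ω' hω hω' e1 e3 i
    have h1 := nat_v hn hε hω hω' (hcode ω ω' e1) i
    have h2 : |F.d ω (c 0) - F.d ω' (c 0)| ≤ 1 / 2 ^ lL := near_fl'
      (show ⌊(2 : ℝ) ^ lL * F.d ω (c 0)⌋ = ⌊(2 : ℝ) ^ lL * F.d ω' (c 0)⌋ from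
        (Prod.ext_iff.1 e3).2)
    refine (mul_le_mul_of_nonneg_left h1 (by positivity)).trans ?_
    rw [mul_add]
    refine add_le_add (le_of_eq ?_) ?_
    · have e4 : (2 : ℝ) ^ (2 * ε * J + ((g i : ℝ) - a + (b - sn (1 + i) b) * J)) =
          2 ^ g i / 2 ^ a * 2 ^ ((2 * ε + b - sn (1 + i) b) * J) := by
        rw [← Real.rpow_natCast, ← Real.rpow_natCast, ← Real.rpow_sub (by norm_num),
          ← Real.rpow_add (by norm_num)]
        congr 1
        ring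
      rw [e4]
      ring
    · have h3 : (2 : ℝ) ^ g i / 2 ^ a * (2 ^ (W i * J) * |F.d ω (c 0) - F.d ω' (c 0)|) ≤
          2 ^ lP * (1 / 2 ^ (lL + a)) := by
        calc (2 : ℝ) ^ g i / 2 ^ a * (2 ^ (W i * J) * |F.d ω (c 0) - F.d ω' (c 0)|) =
              (2 : ℝ) ^ g i * 2 ^ (W i * J) * (|F.d ω (c 0) - F.d ω' (c 0)| / 2 ^ a) := by ring
          _ ≤ 2 ^ lP * ((1 / 2 ^ lL) / 2 ^ a) := mul_le_mul (hg2 i)
              (div_le_div_of_nonneg_right h2 (by positivity)) (by positivity) (by positivity)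
          _ = 2 ^ lP * (1 / 2 ^ (lL + a)) := by
              rw [pow_add]
              field_simp
      refine h3.trans ?_
      have h4 := five_le hlP
      calc (2 : ℝ) ^ lP * (1 / 2 ^ (lL + a)) ≤ 2 ^ lP * (4 / 2 ^ lP) :=
            mul_le_mul_of_nonneg_left h4 (by positivity)
        _ = 4 := by field_simp
  refine ⟨fun ω hω i => hff ω hω i.castSucc, fun ω hω _ => hff ω hω 2, ?_, ?_, ?_, ?_⟩
  · intro ω ω' hω hω' e _ _
    rw [ha, cR1_eq (hqB ω hω), cR1_eq (hqB ω' hω')]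
    exact (Prod.ext_iff.1 e).2
  · intro ω ω' hω hω' e e2 e3 i
    have h1 := hhx ω ω' (hqB ω hω) (hqB ω' hω') (Prod.ext_iff.1 e).1 e2 e3 i.castSucc
    have h2 := hg1 i
    rw [← mul_sub, abs_mul, abs_of_pos (by positivity : (0 : ℝ) < 2 ^ g i.castSucc)]
    have h3 : (2 : ℝ) ^ g i.castSucc * (4 * 2 ^ ((2 * ε - sn (1 + i.castSucc) b) * J)) ≤ 1 := h2
    push_cast
    linarith
  · intro ω ω' hω hω' ht hc hK
    rw [hD.y0 ω (hqB ω hω), hD.y0 ω' (hqB ω' hω')]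
    rw [ha, cR1_eq (hqB ω hω), cR1_eq (hqB ω' hω')] at hK
    obtain ⟨hZ, hT⟩ := Pool.NS95.cR_zt F B xa hK
    rw [← ha] at hT
    exact Prod.ext (yl_near h6 (hD.off ω (hqB ω hω)) (hx0 ω ω' ht hc))
      (Prod.ext hK (Prod.ext (T_of ht hT) hZ))
  · -- the four numbers
    obtain ⟨Y, hY⟩ : ∃ Y : ℝ, Y = (2 : ℝ) ^ ((2 * ε + μ) * J) := ⟨_, rfl⟩
    have hY1 : 1 ≤ Y := by
      rw [hY]
      exact Real.one_le_rpow (by norm_num) (by positivity)
    have hGe : ∀ ω ω', tG a (fun ω => (cR F B b ω, cR F B xa ω)) (cYp c lP lL a) ω =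
        tG a (fun ω => (cR F B b ω, cR F B xa ω)) (cYp c lP lL a) ω' →
        cR F B b ω = cR F B b ω' ∧ cYp c lP lL a (slam F a ω) = cYp c lP lL a (slam F a ω') ∧
          F.T ω = F.T ω' := by
      intro ω ω' e
      have e1 := Prod.ext_iff.1 e
      have e2 := Prod.ext_iff.1 e1.2
      exact ⟨(Prod.ext_iff.1 e1.1).1, e2.1, e2.2⟩
    have hwa : ∀ i, w i ≤ a := hw
    have hfv : ∀ ω (i : Fin 3), fVs c w Fr a (slam F a ω) i = fV F c w Fr ω i := fun ω i =>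
      Pool.T4N.fV_eq hF hwa haJ ω i
    -- the velocity of the target
    have v2 : ∀ ω ω', 0 < cB F B ω → 0 < cB F B ω' →
        tG a (fun ω => (cR F B b ω, cR F B xa ω)) (cYp c lP lL a) ω =
        tG a (fun ω => (cR F B b ω, cR F B xa ω)) (cYp c lP lL a) ω' →
        (2 : ℝ) ^ g 2 / 2 ^ a * |fV F c w Fr ω 2 - fV F c w Fr ω' 2| ≤ 4 * Y + 4 := by
      intro ω ω' hω hω' e
      obtain ⟨e1, e2, -⟩ := hGe ω ω' e
      refine (hhv ω ω' (hqB ω hω) (hqB ω' hω') e1 e2 2).trans ?_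
      have h1 : (2 : ℝ) ^ (2 * ε * J + ((g 2 : ℝ) - a + (b - sn (1 + (2 : Fin 3)) b) * J)) ≤ Y := by
        rw [hY]
        refine Real.rpow_le_rpow_of_exponent_le (by norm_num) ?_
        have h2 : (g 2 : ℝ) - a + (b - sn (1 + (2 : Fin 3)) b) * J ≤ μ * J := hg4
        linarith
      linarith
    have k1 : CH (cB F B) (fun ω (_ : Fin 1) => ⌊(2 : ℝ) ^ g 2 * fXs c w Fr a (slam F a ω) 2⌋)
        (tG a (fun ω => (cR F B b ω, cR F B xa ω)) (cYp c lP lL a)) ≤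
        (1 : ℕ) * Real.log (2 * (18 * Y) + 1) := by
      refine CH_vosc hq fun ω ω' hω hω' e i => ?_
      obtain ⟨e1, e2, e3⟩ := hGe ω ω' e
      have h1 := hhx ω ω' (hqB ω hω) (hqB ω' hω') e1 e3 e2 2
      have h2 := v2 ω ω' hω hω' e
      have h3 : (2 : ℝ) ^ g 2 * (4 * 2 ^ ((2 * ε - sn (1 + (2 : Fin 3)) b) * J)) ≤ 4 * Y := by
        have h4 : (2 : ℝ) ^ g 2 * 2 ^ ((2 * ε - sn (1 + (2 : Fin 3)) b) * J) ≤ Y := by
          rw [hY, ← Real.rpow_natCast, ← Real.rpow_add (by norm_num)]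
          refine Real.rpow_le_rpow_of_exponent_le (by norm_num) ?_
          have h5 : (g 2 : ℝ) - sn (1 + (2 : Fin 3)) b * J ≤ μ * J := hg3
          linarith
        linarith
      have h6' := hff ω hω 2
      have h7' := hff ω' hω' 2
      have eT1 : F.T1 a ω = F.T1 a ω' := by
        unfold Fam.T1
        rw [e3]
      have et : F.t ω = F.t ω' := by
        unfold Fam.t
        rw [e3]
      obtain ⟨t1, t2⟩ := t_T1 haJ ω'
      obtain ⟨τ, hτ⟩ : ∃ τ, τ = F.t ω' - (F.T1 a ω' : ℝ) / 2 ^ a := ⟨_, rfl⟩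
      rw [et, eT1, hfv, ← hτ] at h6'
      rw [hfv, ← hτ] at h7'
      rw [← hτ] at t1 t2
      have e4 : (2 : ℝ) ^ g 2 * fXs c w Fr a (slam F a ω) 2 -
          2 ^ g 2 * fXs c w Fr a (slam F a ω') 2 =
          2 ^ g 2 * (fX F c w Fr ω 2 - fX F c w Fr ω' 2) -
          2 ^ g 2 * (fV F c w Fr ω 2 - fV F c w Fr ω' 2) * τ := by
        rw [h6', h7']
        ring
      have h8 : |2 ^ g 2 * (fV F c w Fr ω 2 - fV F c w Fr ω' 2) * τ| ≤ 4 * Y + 4 := by
        rw [abs_mul, abs_mul, abs_of_nonneg t1, abs_of_pos (by positivity : (0 : ℝ) < 2 ^ g 2)]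
        calc (2 : ℝ) ^ g 2 * |fV F c w Fr ω 2 - fV F c w Fr ω' 2| * τ ≤
              (2 : ℝ) ^ g 2 * |fV F c w Fr ω 2 - fV F c w Fr ω' 2| * (1 / 2 ^ a) :=
                mul_le_mul_of_nonneg_left t2 (by positivity)
          _ = (2 : ℝ) ^ g 2 / 2 ^ a * |fV F c w Fr ω 2 - fV F c w Fr ω' 2| := by ring
          _ ≤ 4 * Y + 4 := h2
      have h9 : |2 ^ g 2 * (fX F c w Fr ω 2 - fX F c w Fr ω' 2)| ≤ 4 * Y + 5 := by
        rw [abs_mul, abs_of_pos (by positivity : (0 : ℝ) < 2 ^ g 2)]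
        linarith
      have h10 : |(2 : ℝ) ^ g 2 * fXs c w Fr a (slam F a ω) 2 -
          2 ^ g 2 * fXs c w Fr a (slam F a ω') 2| ≤ 8 * Y + 9 := by
        rw [e4]
        refine (abs_sub _ _).trans ?_
        linarith
      refine (osc_fl h10).trans ?_
      linarith
    have k2 : CH (cB F B) (fun ω => wD (fun s (_ : Fin 1) => fVs c w Fr a s 2) a
        (fun _ => g 2) (slam F a ω))
        (tG a (fun ω => (cR F B b ω, cR F B xa ω)) (cYp c lP lL a)) ≤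
        (1 : ℕ) * Real.log (2 * (18 * Y) + 1) := by
      refine CH_vosc hq fun ω ω' hω hω' e i => ?_
      have h2 := v2 ω ω' hω hω' e
      have h3 : |(2 : ℝ) ^ g 2 / 2 ^ a * fVs c w Fr a (slam F a ω) 2 -
          2 ^ g 2 / 2 ^ a * fVs c w Fr a (slam F a ω') 2| ≤ 4 * Y + 4 := by
        rw [hfv, hfv, ← mul_sub, abs_mul,
          abs_of_pos (by positivity : (0 : ℝ) < 2 ^ g 2 / 2 ^ a)]
        exact h2
      refine (osc_fl h3).trans ?_
      linarith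
    have k3 : CH (cB F B) (fun ω => wN (fun s (i : Fin 2) => fVs c w Fr a s i.castSucc) a
        (fun i => g i.castSucc) q (slam F a ω))
        (tG a (fun ω => (cR F B b ω, cR F B xa ω)) (cYp c lP lL a)) ≤
        (2 : ℕ) * Real.log (2 * (18 * Y) + 1) := by
      refine CH_vosc hq fun ω ω' hω hω' e i => ?_
      obtain ⟨e1, e2, -⟩ := hGe ω ω' e
      have h1 := hhv ω ω' (hqB ω hω) (hqB ω' hω') e1 e2 i.castSucc
      have h2 : (2 : ℝ) ^ (2 * ε * J + ((g i.castSucc : ℝ) - a +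
          (b - sn (1 + i.castSucc) b) * J)) ≤ Y * 2 ^ q := by
        rw [hY, ← Real.rpow_natCast, ← Real.rpow_add (by norm_num)]
        refine Real.rpow_le_rpow_of_exponent_le (by norm_num) ?_
        have h3 : (g i.castSucc : ℝ) - a - q + (b - sn (1 + i.castSucc) b) * J ≤ μ * J := hg5 i
        linarith
      have hq1 : (1 : ℝ) ≤ 2 ^ q := one_le_pow₀ (by norm_num)
      have h3 : |(2 : ℝ) ^ g i.castSucc / 2 ^ a * fVs c w Fr a (slam F a ω) i.castSucc -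
          2 ^ g i.castSucc / 2 ^ a * fVs c w Fr a (slam F a ω') i.castSucc| ≤
          4 * (Y * 2 ^ q) + 4 := by
        rw [hfv, hfv, ← mul_sub, abs_mul,
          abs_of_pos (by positivity : (0 : ℝ) < 2 ^ g i.castSucc / 2 ^ a)]
        linarith
      have h4 := osc_fl h3
      refine (osc_dv (D := 4 * Y + 5) (h4.trans ?_)).trans ?_
      · have h5 : (4 * Y + 5) * (2 : ℝ) ^ q = 4 * (Y * 2 ^ q) + 5 * 2 ^ q := by ring
        rw [h5]
        linarith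
      · linarith
    have k4 := CH_subadd hq.nonneg (fun ω => wS (fun s (_ : Fin 1) => fXs c w Fr a s 2)
        (fun s _ => fVs c w Fr a s 2) a (fun _ => g 2) (slam F a ω))
      (fun ω => wN (fun s (i : Fin 2) => fVs c w Fr a s i.castSucc) a
          (fun i => g i.castSucc) q (slam F a ω))
      (tG a (fun ω => (cR F B b ω, cR F B xa ω)) (cYp c lP lL a))
    have k5 : CH (cB F B) (fun ω => wS (fun s (_ : Fin 1) => fXs c w Fr a s 2)
        (fun s _ => fVs c w Fr a s 2) a (fun _ => g 2) (slam F a ω))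
        (tG a (fun ω => (cR F B b ω, cR F B xa ω)) (cYp c lP lL a)) ≤
        CH (cB F B) (fun ω (_ : Fin 1) => ⌊(2 : ℝ) ^ g 2 * fXs c w Fr a (slam F a ω) 2⌋)
          (tG a (fun ω => (cR F B b ω, cR F B xa ω)) (cYp c lP lL a)) +
        CH (cB F B) (fun ω => wD (fun s (_ : Fin 1) => fVs c w Fr a s 2) a
          (fun _ => g 2) (slam F a ω))
          (tG a (fun ω => (cR F B b ω, cR F B xa ω)) (cYp c lP lL a)) :=
      CH_subadd hq.nonneg (fun ω (_ : Fin 1) => ⌊(2 : ℝ) ^ g 2 * fXs c w Fr a (slam F a ω) 2⌋)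
        (fun ω => wD (fun s (_ : Fin 1) => fVs c w Fr a s 2) a (fun _ => g 2) (slam F a ω)) _
    have k6 : Real.log (2 * (18 * Y) + 1) ≤ (2 * ε + μ) * J + 5 := by
      have h1 : Real.log (2 * (18 * Y) + 1) ≤ Real.log (64 * Y) :=
        Real.log_le_log (by positivity) (by linarith)
      have h2 : Real.log (64 * Y) = 6 * Real.log 2 + (2 * ε + μ) * J * Real.log 2 := by
        rw [Real.log_mul (by norm_num) (by linarith), hY, Real.log_rpow (by norm_num)]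
        have : (64 : ℝ) = 2 ^ 6 := by norm_num
        rw [this, Real.log_pow]
        norm_num
      have h3 := Real.log_two_lt_d9
      have h4 : (2 * ε + μ) * J * Real.log 2 ≤ (2 * ε + μ) * J * 1 :=
        mul_le_mul_of_nonneg_left (by linarith) (by positivity)
      linarith
    push_cast at k1 k2 k3
    linarith

end Pool.D117
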