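import Pool.Agent.H17.D1.RwL
import Pool.Agent.H64.D1.Law

/-!
# The digits of the target given the digits of the alive places: one event
-/

set_option autoImplicit false

namespace Pool.D117

open Finset Real MvPolynomial
open Pool.Agent.H49.Ent Pool.Agent.H32.Dense
open Pool.STK hiding pr2
open Pool.KA Pool.KSAT Pool.K2S Pool.PB Pool.S6C
open Pool.GEN Pool.CHT Pool.CHX Pool.LA91 Pool.RCD Pool.V0F
open Pool.UNJ (ceI)
open Pool.D2F2 (hgp)
open Pool.T4N (Frm FrmP fX fV)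
open Pool.T4R (CH_osc near_of_floor near_of_div)
open Pool.D164 (CH_vosc NatO nat_x nat_y)

variable {m J : ℕ}

theorem log_quo {J g : ℕ} : Real.log ((2 : ℝ) ^ J / 2 ^ g) = ((J : ℝ) - g) * Real.log 2 := by
  rw [Real.log_div (by positivity) (by positivity), Real.log_pow, Real.log_pow]
  ring

theorem one_quo {J g : ℕ} (h : g ≤ J) : (1 : ℝ) ≤ 2 ^ J / 2 ^ g := by
  rw [le_div_iff₀ (by positivity), one_mul]
  exact pow_le_pow_right₀ (by norm_num) h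

section ev

variable {F : Fam m J} {c : ℕ → Fin m} {w P : Fin 3 → ℕ} {A : F.Ω → Prop} {Fr : Frm F}
  {q : F.Ω → ℝ} {g : Fin 3 → ℕ} {r lP : ℕ} {V : Type} {yc : F.Ω → V} {z : F.Ω → Fin 2 → ℤ}
  {N Y : F.Ω → ℤ}

/-- The places given the digits. -/
theorem up1 (hq : IsLaw q) (hqA : ∀ ω, 0 < q ω → A ω) (hF : FrmP F c w P A Fr)
    (hraw : ∀ ω, A ω → ∀ (i : Fin 3) (o : Option (Fin m)), (2 : ℝ) ^ g i *
      |coeff (Finsupp.single o 1) (Fr.G i (Fr.z' i (slam F (w i) ω)))| ≤ 2 ^ J)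
    (hlP : lP ≤ J) (hgJ : ∀ i : Fin 2, g i.castSucc ≤ J)
    (hyc : ∀ ω ω', A ω → A ω' → yc ω = yc ω' → ∀ i,
      Fr.G i (Fr.z' i (slam F (w i) ω)) = Fr.G i (Fr.z' i (slam F (w i) ω')))
    (hz : ∀ ω, A ω → ∀ i : Fin 2, |(z ω i : ℝ) - 2 ^ g i.castSucc * fX F c w Fr ω i.castSucc| ≤ 2)
    (hY : ∀ ω, A ω → |(Y ω : ℝ) - 2 ^ lP * F.x ω (c 0)| ≤ 2) :
    CH q (fun ω (l : Fin 3) => F.X J ω (c l))
      (fun ω => (N ω / 2 ^ r, (z ω, (Y ω, (yc ω, F.W ω))))) ≤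
      (((J : ℝ) - lP) + ((J : ℝ) - g 0) + ((J : ℝ) - g 1)) * Real.log 2 + 3 * Real.log 31 := by
  have h0 := hq.nonneg
  obtain ⟨Z, hZ⟩ : ∃ Z : F.Ω → _, Z = fun ω => (N ω / (2 : ℤ) ^ r, (z ω, (Y ω, (yc ω, F.W ω)))) :=
    ⟨_, rfl⟩
  rw [← hZ]
  obtain ⟨T, hT⟩ : ∃ T : ℕ → ℝ, T = fun i => CH q (fun ω => F.X J ω (c i))
    (fun ω => ((fun l : Fin i => F.X J ω (c l)), Z ω)) := ⟨_, rfl⟩
  have h1 : CH q (fun ω (l : Fin 3) => F.X J ω (c l)) Z = ∑ i ∈ range 3, T i := by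
    rw [hT]
    exact CH_fin_chain h0 (fun l ω => F.X J ω (c l)) Z 3
  have hZe : ∀ ω ω', Z ω = Z ω' → z ω = z ω' ∧ Y ω = Y ω' ∧ yc ω = yc ω' ∧ F.T ω = F.T ω' := by
    intro ω ω' e
    rw [hZ] at e
    have e1 := (Prod.ext_iff.1 (Prod.ext_iff.1 e).2)
    have e2 := Prod.ext_iff.1 e1.2
    have e3 := Prod.ext_iff.1 e2.2
    exact ⟨e1.1, e2.1, e3.1, (Prod.ext_iff.1 e3.2).1⟩
  have t0 : T 0 ≤ ((J : ℝ) - lP) * Real.log 2 + Real.log 31 := by
    rw [hT]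
    have hy := one_quo hlP
    refine (CH_osc hq (D := 4 * (2 ^ J / 2 ^ lP) + 1) (by positivity)
      fun ω ω' hω hω' e => ?_).trans ?_
    · obtain ⟨-, e1, -, -⟩ := hZe ω ω' (Prod.ext_iff.1 e).2
      have h2 := near_r (hY ω (hqA ω hω)) (hY ω' (hqA ω' hω')) e1
      rw [← mul_sub, abs_mul, abs_of_pos (by positivity : (0 : ℝ) < 2 ^ lP)] at h2
      refine osc_X ?_
      calc (2 : ℝ) ^ J * |F.x ω (c 0) - F.x ω' (c 0)| =
            2 ^ J / 2 ^ lP * (2 ^ lP * |F.x ω (c 0) - F.x ω' (c 0)|) := by field_simp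
        _ ≤ 2 ^ J / 2 ^ lP * 4 := mul_le_mul_of_nonneg_left h2 (by positivity)
        _ = 4 * (2 ^ J / 2 ^ lP) := mul_comm _ _
    · refine (log_osc (by norm_num) (by norm_num) hy).trans ?_
      rw [log_quo]
      refine add_le_add le_rfl (Real.log_le_log (by norm_num) (by norm_num))
  have t1 : ∀ j : Fin 2, T (1 + j) ≤ ((J : ℝ) - g j.castSucc) * Real.log 2 + Real.log 31 := by
    intro j
    rw [hT]
    have hy := one_quo (hgJ j)
    refine (CH_osc hq (D := 7 * (2 ^ J / 2 ^ g j.castSucc) + 1) (by positivity)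
      fun ω ω' hω hω' e => ?_).trans ?_
    · obtain ⟨e1, -, e2, e3⟩ := hZe ω ω' (Prod.ext_iff.1 e).2
      have e4 : (fun l : Fin (1 + j) => F.X J ω (c l)) = fun l : Fin (1 + j) => F.X J ω' (c l) :=
        (Prod.ext_iff.1 e).1
      have aω := hqA ω hω
      have aω' := hqA ω' hω'
      have h2 := near_r (hz ω aω j) (hz ω' aω' j) (congrFun e1 j)
      rw [← mul_sub, abs_mul, abs_of_pos (by positivity : (0 : ℝ) < 2 ^ g j.castSucc)] at h2
      have h3 := fx_near hF e3 (hyc ω ω' aω aω' e2 j.castSucc) (hraw ω aω j.castSucc)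
        (fun l hl => near_x (congrFun e4 ⟨l, hl⟩))
      have h4 : (2 : ℝ) ^ g j.castSucc * |F.x ω (c (1 + j)) - F.x ω' (c (1 + j))| ≤ 7 := by
        have h5 : |F.x ω (c (1 + j)) - F.x ω' (c (1 + j))| ≤
            |fX F c w Fr ω j.castSucc - fX F c w Fr ω' j.castSucc| +
            |(fX F c w Fr ω j.castSucc - fX F c w Fr ω' j.castSucc) -
              (F.x ω (c (1 + j)) - F.x ω' (c (1 + j)))| := by
          have := abs_sub (fX F c w Fr ω j.castSucc - fX F c w Fr ω' j.castSucc)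
            ((fX F c w Fr ω j.castSucc - fX F c w Fr ω' j.castSucc) -
              (F.x ω (c (1 + j)) - F.x ω' (c (1 + j))))
          rw [sub_sub_cancel] at this
          exact this
        have h6 := mul_le_mul_of_nonneg_left h5
          (by positivity : (0 : ℝ) ≤ 2 ^ g j.castSucc)
        rw [mul_add] at h6
        have h7 : (2 : ℝ) ^ g j.castSucc * |(fX F c w Fr ω j.castSucc -
          fX F c w Fr ω' j.castSucc) - (F.x ω (c (1 + j)) - F.x ω' (c (1 + j)))| ≤ 3 := h3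
        linarith
      refine osc_X ?_
      calc (2 : ℝ) ^ J * |F.x ω (c (1 + j)) - F.x ω' (c (1 + j))| =
            2 ^ J / 2 ^ g j.castSucc *
              (2 ^ g j.castSucc * |F.x ω (c (1 + j)) - F.x ω' (c (1 + j))|) := by field_simp
        _ ≤ 2 ^ J / 2 ^ g j.castSucc * 7 := mul_le_mul_of_nonneg_left h4 (by positivity)
        _ = 7 * (2 ^ J / 2 ^ g j.castSucc) := mul_comm _ _
    · refine (log_osc (by norm_num) (by norm_num) hy).trans ?_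
      rw [log_quo]
      refine add_le_add le_rfl (Real.log_le_log (by norm_num) (by norm_num))
  have t10 : T 1 ≤ ((J : ℝ) - g 0) * Real.log 2 + Real.log 31 := t1 0
  have t11 : T 2 ≤ ((J : ℝ) - g 1) * Real.log 2 + Real.log 31 := t1 1
  rw [h1, Finset.sum_range_succ, Finset.sum_range_succ, Finset.sum_range_one]
  linarith

/-- The digits of the target given the places. -/
theorem up2 (hq : IsLaw q) (hqA : ∀ ω, 0 < q ω → A ω) (hF : FrmP F c w P A Fr)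
    (hraw : ∀ ω, A ω → ∀ (i : Fin 3) (o : Option (Fin m)), (2 : ℝ) ^ g i *
      |coeff (Finsupp.single o 1) (Fr.G i (Fr.z' i (slam F (w i) ω)))| ≤ 2 ^ J)
    (hyc : ∀ ω ω', A ω → A ω' → yc ω = yc ω' → ∀ i,
      Fr.G i (Fr.z' i (slam F (w i) ω)) = Fr.G i (Fr.z' i (slam F (w i) ω')))
    (hN : ∀ ω, A ω → |(N ω : ℝ) - 2 ^ g 2 * fX F c w Fr ω 2| ≤ 2)
    (himg : (range 3).image c = univ.erase (c 3)) {gl : ℕ} (hg2 : g 2 = gl + r) :
    CH q N (fun ω => ((fun l : Fin 3 => F.X J ω (c l)),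
      (N ω / 2 ^ r, (z ω, (Y ω, (yc ω, F.W ω)))))) ≤
    CH q (fun ω => F.X (g 2) ω (c 3)) (fun ω => (F.X gl ω (c 3),
      (ceI (univ.erase (c 3)) (fun _ => J) (F.x ω), F.W ω))) + 2 * Real.log 31 := by
  have h0 := hq.nonneg
  obtain ⟨Z, hZ⟩ : ∃ Z : F.Ω → _, Z = fun ω => ((fun l : Fin 3 => F.X J ω (c l)),
    (N ω / (2 : ℤ) ^ r, (z ω, (Y ω, (yc ω, F.W ω))))) := ⟨_, rfl⟩
  rw [← hZ]
  have hZe : ∀ ω ω', Z ω = Z ω' → (∀ l : ℕ, l < 3 → F.X J ω (c l) = F.X J ω' (c l)) ∧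
      N ω / 2 ^ r = N ω' / 2 ^ r ∧ yc ω = yc ω' ∧ F.W ω = F.W ω' := by
    intro ω ω' e
    rw [hZ] at e
    have e0 : (fun l : Fin 3 => F.X J ω (c l)) = fun l : Fin 3 => F.X J ω' (c l) :=
      (Prod.ext_iff.1 e).1
    have e1 := Prod.ext_iff.1 (Prod.ext_iff.1 e).2
    have e2 := Prod.ext_iff.1 e1.2
    have e3 := Prod.ext_iff.1 e2.2
    have e4 := Prod.ext_iff.1 e3.2
    exact ⟨fun l hl => congrFun e0 ⟨l, hl⟩, e1.1, e4.1, e4.2⟩
  have hp2 : (0 : ℝ) < 2 ^ g 2 := by positivity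
  -- the differences
  have hdf : ∀ ω ω', A ω → A ω' → Z ω = Z ω' → (2 : ℝ) ^ g 2 *
      |(fX F c w Fr ω 2 - fX F c w Fr ω' 2) - (F.x ω (c 3) - F.x ω' (c 3))| ≤ 3 := by
    intro ω ω' aω aω' e
    obtain ⟨e1, -, e2, e3⟩ := hZe ω ω' e
    exact fx_near hF (Prod.ext_iff.1 e3).1 (hyc ω ω' aω aω' e2 2) (hraw ω aω 2)
      (fun l hl => near_x (e1 l hl))
  obtain ⟨Xu, hXu⟩ : ∃ Xu : F.Ω → ℤ, Xu = fun ω => F.X (g 2) ω (c 3) := ⟨_, rfl⟩
  obtain ⟨Xl, hXl⟩ : ∃ Xl : F.Ω → ℤ, Xl = fun ω => F.X gl ω (c 3) := ⟨_, rfl⟩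
  rw [← hXu]
  have k1 := CH_le_add h0 N Xl Z
  have k2 := CH_le_add h0 N Xu (fun ω => (Xl ω, Z ω))
  have k3 : CH q Xl Z ≤ Real.log 31 := by
    refine (CH_osc hq (D := 9) (by norm_num) fun ω ω' hω hω' e => ?_).trans
      (Real.log_le_log (by norm_num) (by norm_num))
    have aω := hqA ω hω
    have aω' := hqA ω' hω'
    have h1 := near_of_div (hZe ω ω' e).2.1
    have h2 := hdf ω ω' aω aω' e
    have h3 := abs_le.1 (hN ω aω)
    have h4 := abs_le.1 (hN ω' aω')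
    have h5 := abs_le.1 h1
    have hr1 : (1 : ℝ) ≤ 2 ^ r := one_le_pow₀ (by norm_num)
    have h6 : (2 : ℝ) ^ g 2 * |fX F c w Fr ω 2 - fX F c w Fr ω' 2| ≤ 2 ^ r + 4 := by
      have e0 : (2 : ℝ) ^ g 2 * |fX F c w Fr ω 2 - fX F c w Fr ω' 2| =
          |2 ^ g 2 * fX F c w Fr ω 2 - 2 ^ g 2 * fX F c w Fr ω' 2| := by
        rw [← mul_sub, abs_mul, abs_of_pos hp2]
      rw [e0, abs_le]
      constructor <;> linarith [h3.1, h3.2, h4.1, h4.2, h5.1, h5.2]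
    have h7 : (2 : ℝ) ^ g 2 * |F.x ω (c 3) - F.x ω' (c 3)| ≤ 2 ^ r + 7 := by
      have h8 : |F.x ω (c 3) - F.x ω' (c 3)| ≤ |fX F c w Fr ω 2 - fX F c w Fr ω' 2| +
          |(fX F c w Fr ω 2 - fX F c w Fr ω' 2) - (F.x ω (c 3) - F.x ω' (c 3))| := by
        have := abs_sub (fX F c w Fr ω 2 - fX F c w Fr ω' 2)
          ((fX F c w Fr ω 2 - fX F c w Fr ω' 2) - (F.x ω (c 3) - F.x ω' (c 3)))
        rw [sub_sub_cancel] at this
        exact this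
      have h9 := mul_le_mul_of_nonneg_left h8 hp2.le
      rw [mul_add] at h9
      linarith
    have h10 : (2 : ℝ) ^ gl * |F.x ω (c 3) - F.x ω' (c 3)| ≤ 8 := by
      have e1 : (2 : ℝ) ^ g 2 = 2 ^ gl * 2 ^ r := by rw [hg2, pow_add]
      rw [e1] at h7
      have h11 : 2 ^ gl * |F.x ω (c 3) - F.x ω' (c 3)| * 2 ^ r ≤ 8 * 2 ^ r := by
        calc 2 ^ gl * |F.x ω (c 3) - F.x ω' (c 3)| * 2 ^ r =
              2 ^ gl * 2 ^ r * |F.x ω (c 3) - F.x ω' (c 3)| := by ring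
          _ ≤ 2 ^ r + 7 := h7
          _ ≤ 8 * 2 ^ r := by linarith
      exact le_of_mul_le_mul_right h11 (by positivity)
    have h12 := osc_X h10
    rw [hXl]
    show |(F.X gl ω (c 3) : ℝ) - F.X gl ω' (c 3)| ≤ 9
    linarith
  have k4 : CH q N (fun ω => (Xu ω, (Xl ω, Z ω))) ≤ Real.log 31 := by
    refine (CH_osc hq (D := 8) (by norm_num) fun ω ω' hω hω' e => ?_).trans
      (Real.log_le_log (by norm_num) (by norm_num))
    have aω := hqA ω hω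
    have aω' := hqA ω' hω'
    have e1 : Xu ω = Xu ω' := (Prod.ext_iff.1 e).1
    have e2 : Z ω = Z ω' := (Prod.ext_iff.1 (Prod.ext_iff.1 e).2).2
    rw [hXu] at e1
    have h1 := near_x e1
    have h2 := hdf ω ω' aω aω' e2
    have h3 : (2 : ℝ) ^ g 2 * |F.x ω (c 3) - F.x ω' (c 3)| ≤ 1 := by
      rw [le_div_iff₀ hp2, mul_comm] at h1
      exact h1
    have h4 : |(2 : ℝ) ^ g 2 * fX F c w Fr ω 2 - 2 ^ g 2 * fX F c w Fr ω' 2| ≤ 4 := by
      rw [← mul_sub, abs_mul, abs_of_pos hp2]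
      have h5 : |fX F c w Fr ω 2 - fX F c w Fr ω' 2| ≤ |F.x ω (c 3) - F.x ω' (c 3)| +
          |(fX F c w Fr ω 2 - fX F c w Fr ω' 2) - (F.x ω (c 3) - F.x ω' (c 3))| := by
        have := abs_add_le (F.x ω (c 3) - F.x ω' (c 3))
          ((fX F c w Fr ω 2 - fX F c w Fr ω' 2) - (F.x ω (c 3) - F.x ω' (c 3)))
        rw [add_sub_cancel] at this
        exact this
      have h6 := mul_le_mul_of_nonneg_left h5 hp2.le
      rw [mul_add] at h6
      linarith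
    have h7 := near_i (hN ω aω) (hN ω' aω') h4
    linarith
  have k5 : CH q Xu (fun ω => (Xl ω, Z ω)) ≤ CH q Xu (fun ω => (F.X gl ω (c 3),
      (ceI (univ.erase (c 3)) (fun _ => J) (F.x ω), F.W ω))) := by
    refine CH_mono_cond h0 fun ω ω' _ _ e => ?_
    have e1 : Xl ω = Xl ω' := (Prod.ext_iff.1 e).1
    obtain ⟨e2, -, -, e3⟩ := hZe ω ω' (Prod.ext_iff.1 e).2
    rw [hXl] at e1
    refine Prod.ext e1 (Prod.ext ?_ e3)
    rw [← himg]
    refine funext fun i => ?_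
    show ceI ((range 3).image c) (fun _ => J) (F.x ω) i =
      ceI ((range 3).image c) (fun _ => J) (F.x ω') i
    unfold Pool.UNJ.ceI
    by_cases hi : i ∈ (range 3).image c
    · rw [if_pos hi, if_pos hi]
      obtain ⟨l, hl, rfl⟩ := mem_image.1 hi
      exact e2 l (mem_range.1 hl)
    · rw [if_neg hi, if_neg hi]
  linarith

/-- The places given the digits are natural. -/
theorem lo3 (hq : IsLaw q) (hqA : ∀ ω, 0 < q ω → A ω) {sn : ℕ → ℝ → ℝ} {v ε R : ℝ}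
    {W : Fin 3 → ℝ} {V₁ : Type} {zn : PtT F → V₁} {zn' : LnT F → V₁}
    {G : V₁ → ℕ → MvPolynomial (Option (Fin m)) ℝ} {ka : V₁ → ℝ} {al be ga : V₁ → Fin 3 → ℝ}
    {py : V₁ → ℕ → ℝ} (hε : 0 ≤ ε)
    (hn : NatO F c sn v ε R W A (fX F c w Fr) (fV F c w Fr) zn zn' G ka al be ga py)
    (hg : ∀ i : Fin 3, (2 : ℝ) ^ g i * (4 * 2 ^ ((2 * ε - sn (1 + i) v) * J)) ≤ 1)
    (hW : ∀ i : Fin 3, (2 : ℝ) ^ g i * 2 ^ (W i * J) ≤ 2 ^ lP)
    (hl0 : sn 0 v * J ≤ lP)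
    (hz : ∀ ω, A ω → ∀ i : Fin 2, |(z ω i : ℝ) - 2 ^ g i.castSucc * fX F c w Fr ω i.castSucc| ≤ 2)
    (hN : ∀ ω, A ω → |(N ω : ℝ) - 2 ^ g 2 * fX F c w Fr ω 2| ≤ 2)
    (hY : ∀ ω, A ω → |(Y ω : ℝ) - 2 ^ lP * F.x ω (c 0)| ≤ 2) {T U : Type} {X : F.Ω → T}
    {Uc : F.Ω → U} (hU1 : ∀ ω ω', Uc ω = Uc ω' → zn' (slam F ⌊v * J⌋₊ ω) = zn' (slam F ⌊v * J⌋₊ ω'))
    (hU2 : ∀ ω ω', Uc ω = Uc ω' → yc ω = yc ω') :
    CH q X (fun ω => (Uc ω, F.W ω)) ≤ CH q X (fun ω => (N ω,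
      (N ω / 2 ^ r, (z ω, (Y ω, (yc ω, F.W ω)))))) +
      ((lP + (ε - sn 0 v) * J) * Real.log 2 + 4 * Real.log 31) := by
  have h0 := hq.nonneg
  have hJ0 : (0 : ℝ) ≤ J := Nat.cast_nonneg J
  have k1 := CH_le_add h0 X Y (fun ω => (Uc ω, F.W ω))
  have k2 := CH_le_add h0 X z (fun ω => (Y ω, (Uc ω, F.W ω)))
  have k3 := CH_le_add h0 X N (fun ω => (z ω, (Y ω, (Uc ω, F.W ω))))
  have k4 : CH q X (fun ω => (N ω, (z ω, (Y ω, (Uc ω, F.W ω))))) ≤ CH q X (fun ω => (N ω,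
      (N ω / 2 ^ r, (z ω, (Y ω, (yc ω, F.W ω)))))) := by
    refine CH_mono_cond h0 fun ω ω' _ _ e => ?_
    have e1 := Prod.ext_iff.1 e
    have e2 := Prod.ext_iff.1 e1.2
    have e3 := Prod.ext_iff.1 e2.2
    have e4 := Prod.ext_iff.1 e3.2
    have eN : N ω = N ω' := e1.1
    refine Prod.ext eN (Prod.ext ?_ (Prod.ext e2.1 (Prod.ext e3.1 (Prod.ext (hU2 ω ω' e4.1) e4.2))))
    show N ω / 2 ^ r = N ω' / 2 ^ r
    rw [eN]
  have k5 : CH q Y (fun ω => (Uc ω, F.W ω)) ≤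
      (lP + (ε - sn 0 v) * J) * Real.log 2 + Real.log 31 := by
    have hy : (1 : ℝ) ≤ 2 ^ lP * 2 ^ ((ε - sn 0 v) * J) := by
      rw [← Real.rpow_natCast, ← Real.rpow_add (by norm_num)]
      refine Real.one_le_rpow (by norm_num) ?_
      nlinarith
    refine (CH_osc hq (D := 2 * (2 ^ lP * 2 ^ ((ε - sn 0 v) * J)) + 4) (by positivity)
      fun ω ω' hω hω' e => ?_).trans ?_
    · have e1 := Prod.ext_iff.1 e
      have h1 := nat_y hn (hqA ω hω) (hqA ω' hω') (hU1 ω ω' e1.1) (Prod.ext_iff.1 e1.2).1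
      refine near_i (hY ω (hqA ω hω)) (hY ω' (hqA ω' hω')) ?_
      rw [← mul_sub, abs_mul, abs_of_pos (by positivity : (0 : ℝ) < 2 ^ lP)]
      calc (2 : ℝ) ^ lP * |F.x ω (c 0) - F.x ω' (c 0)| ≤
            2 ^ lP * (2 * 2 ^ ((ε - sn 0 v) * J)) := mul_le_mul_of_nonneg_left h1 (by positivity)
        _ = 2 * (2 ^ lP * 2 ^ ((ε - sn 0 v) * J)) := by ring
    · refine (log_osc (by norm_num) (by norm_num) hy).trans ?_
      refine add_le_add (le_of_eq ?_) (Real.log_le_log (by norm_num) (by norm_num))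
      rw [← Real.rpow_natCast, ← Real.rpow_add (by norm_num), Real.log_rpow (by norm_num)]
  -- the heights
  have key : ∀ ω ω', A ω → A ω' → Y ω = Y ω' → Uc ω = Uc ω' → F.W ω = F.W ω' → ∀ i,
      |(2 : ℝ) ^ g i * fX F c w Fr ω i - 2 ^ g i * fX F c w Fr ω' i| ≤ 5 := by
    intro ω ω' aω aω' e1 e2 e3 i
    have h1 := nat_x hn hε aω aω' (hU1 ω ω' e2) (Prod.ext_iff.1 e3).1 i
    have h2 := near_r (hY ω aω) (hY ω' aω') e1
    rw [← mul_sub, abs_mul, abs_of_pos (by positivity : (0 : ℝ) < 2 ^ lP)] at h2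
    rw [← mul_sub, abs_mul, abs_of_pos (by positivity : (0 : ℝ) < 2 ^ g i)]
    refine (mul_le_mul_of_nonneg_left h1 (by positivity)).trans ?_
    rw [mul_add]
    have h3 := hg i
    have h4 : (2 : ℝ) ^ g i * (2 ^ (W i * J) * |F.x ω (c 0) - F.x ω' (c 0)|) ≤ 4 := by
      rw [← mul_assoc]
      exact (mul_le_mul_of_nonneg_right (hW i) (abs_nonneg _)).trans h2
    linarith
  have k6 : CH q z (fun ω => (Y ω, (Uc ω, F.W ω))) ≤ 2 * Real.log 31 := by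
    refine (CH_vosc hq (D := 9) fun ω ω' hω hω' e i => ?_).trans ?_
    · have e1 := Prod.ext_iff.1 e
      have e2 := Prod.ext_iff.1 e1.2
      have h1 := near_i (hz ω (hqA ω hω) i) (hz ω' (hqA ω' hω') i)
        (key ω ω' (hqA ω hω) (hqA ω' hω') e1.1 e2.1 e2.2 i.castSucc)
      linarith
    · refine mul_le_mul (by norm_num) (Real.log_le_log (by norm_num) (by norm_num))
        (Real.log_nonneg (by norm_num)) (by norm_num)
  have k7 : CH q N (fun ω => (z ω, (Y ω, (Uc ω, F.W ω)))) ≤ Real.log 31 := by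
    refine (CH_osc hq (D := 9) (by norm_num) fun ω ω' hω hω' e => ?_).trans
      (Real.log_le_log (by norm_num) (by norm_num))
    have e0 := Prod.ext_iff.1 e
    have e1 := Prod.ext_iff.1 e0.2
    have e2 := Prod.ext_iff.1 e1.2
    have h1 := near_i (hN ω (hqA ω hω)) (hN ω' (hqA ω' hω'))
      (key ω ω' (hqA ω hω) (hqA ω' hω') e1.1 e2.1 e2.2 2)
    linarith
  linarith

end ev

end Pool.D117
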