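import Pool.Agent.H64.D1.CS
import Pool.Agent.H55.T4.Row

/-!
# The digits of the target given the digits of the alive places: preparations
-/

set_option autoImplicit false

namespace Pool.D117

open Finset Real MvPolynomial
open Pool.Agent.H49.Ent Pool.Agent.H32.Dense
open Pool.STK hiding pr2
open Pool.KA Pool.KSAT Pool.K2S Pool.PB Pool.S6C
open Pool.GEN Pool.CHT Pool.CHX Pool.LA91 Pool.RCD Pool.V0F
open Pool.D2F2 (hgp)
open Pool.T4N (Frm FrmP fX fV)
open Pool.T4R (CH_osc near_of_floor near_of_div)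

variable {m J : ℕ}

/-- The chain of the entropies of finitely many variables. -/
theorem CH_fin_chain {Ω S : Type} [Fintype Ω] {p : Ω → ℝ} (h0 : ∀ ω, 0 ≤ p ω) (X : ℕ → Ω → ℤ)
    (C : Ω → S) (n : ℕ) : CH p (fun ω (l : Fin n) => X l ω) C =
      ∑ i ∈ range n, CH p (X i) (fun ω => ((fun l : Fin i => X l ω), C ω)) := by
  induction n with
  | zero =>
    rw [Finset.sum_range_zero]
    exact CH_eq_zero h0 fun _ _ _ _ _ => Subsingleton.elim _ _
  | succ n ih =>
    rw [Finset.sum_range_succ, ← ih, ← CH_chain h0 (X n) (fun ω (l : Fin n) => X l ω) C]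
    refine CH_congr h0 (fun ω ω' _ _ e => ?_) (fun ω ω' _ _ e => ?_) (fun _ _ _ _ e => e)
      (fun _ _ _ _ e => e)
    · have e1 : (fun l : Fin (n + 1) => X l ω) = fun l : Fin (n + 1) => X l ω' := (Prod.ext_iff.1 e).1
      exact Prod.ext (congrFun e1 (Fin.last n)) (funext fun l => congrFun e1 l.castSucc)
    · have e1 := (Prod.ext_iff.1 e).1
      have e2 : X n ω = X n ω' := (Prod.ext_iff.1 e1).1
      have e3 : (fun l : Fin n => X l ω) = fun l : Fin n => X l ω' := (Prod.ext_iff.1 e1).2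
      refine funext fun l => ?_
      rcases Fin.eq_castSucc_or_eq_last l with ⟨l', rfl⟩ | rfl
      · exact congrFun e3 l'
      · exact e2

/-- The change of a label. -/
theorem lab_diff {G : MvPolynomial (Option (Fin m)) ℝ} (hd : G.totalDegree ≤ 1)
    {I : Finset (Fin m)} (hI : ∀ b b' : Option (Fin m) → ℝ, b none = b' none →
      (∀ i ∈ I, b (some i) = b' (some i)) → eval b G = eval b' G) {b b' : Option (Fin m) → ℝ}
    (hn : b none = b' none) : |eval b G - eval b' G| ≤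
      ∑ i ∈ I, |coeff (Finsupp.single (some i) 1) G| * |b (some i) - b' (some i)| := by
  classical
  obtain ⟨b₂, hb₂⟩ : ∃ b₂ : Option (Fin m) → ℝ, b₂ = fun o => match o with
    | none => b none
    | some i => if i ∈ I then b' (some i) else b (some i) := ⟨_, rfl⟩
  have hs : ∀ i, b₂ (some i) = if i ∈ I then b' (some i) else b (some i) := fun i => by rw [hb₂]
  have hn2 : b₂ none = b none := by rw [hb₂]
  have h1 : eval b' G = eval b₂ G := hI b' b₂ (by rw [hn2, hn]) fun i hi => by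
    rw [hs, if_pos hi]
  rw [h1, Pool.FVL91.eval_one hd, Pool.FVL91.eval_one hd]
  have e1 : coeff 0 G + ∑ o, coeff (Finsupp.single o 1) G * b o -
      (coeff 0 G + ∑ o, coeff (Finsupp.single o 1) G * b₂ o) =
      ∑ i ∈ I, coeff (Finsupp.single (some i) 1) G * (b (some i) - b' (some i)) := by
    rw [add_sub_add_left_eq_sub, ← Finset.sum_sub_distrib, Fintype.sum_option, hn2, sub_self,
      zero_add, ← Finset.sum_subset (Finset.subset_univ I)]
    · refine Finset.sum_congr rfl fun i hi => ?_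
      rw [hs, if_pos hi]
      ring
    · intro i _ hi
      rw [hs, if_neg hi, sub_self]
  rw [e1]
  refine (Finset.abs_sum_le_sum_abs _ _).trans (le_of_eq ?_)
  exact Finset.sum_congr rfl fun i _ => by rw [abs_mul]

/-- **The heights over the frame and the positions** of two samples with the same frame. -/
theorem fx_near {F : Fam m J} {c : ℕ → Fin m} {w P : Fin 3 → ℕ} {A : F.Ω → Prop} {Fr : Frm F}
    (hF : FrmP F c w P A Fr) {ω ω' : F.Ω} (ht : F.T ω = F.T ω') {i : Fin 3}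
    (hG : Fr.G i (Fr.z' i (slam F (w i) ω)) = Fr.G i (Fr.z' i (slam F (w i) ω'))) {g : ℕ}
    (hraw : ∀ o, (2 : ℝ) ^ g *
      |coeff (Finsupp.single o 1) (Fr.G i (Fr.z' i (slam F (w i) ω)))| ≤ 2 ^ J)
    (hx : ∀ l : ℕ, l < 1 + i → |F.x ω (c l) - F.x ω' (c l)| ≤ 1 / 2 ^ J) :
    (2 : ℝ) ^ g * |(fX F c w Fr ω i - fX F c w Fr ω' i) -
      (F.x ω (c (1 + i)) - F.x ω' (c (1 + i)))| ≤ 3 := by
  classical
  have h0 : ∀ ν, fX F c w Fr ν i = F.x ν (c (1 + i)) -
      eval (Pool.GEN.bt F ν) (Fr.G i (Fr.z' i (slam F (w i) ν))) := fun ν => by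
    unfold Pool.T4N.fX
    rw [Pool.D2F2.ojet_hgp]
    rfl
  rw [h0, h0, ← hG]
  have e1 : F.x ω (c (1 + i)) - eval (Pool.GEN.bt F ω) (Fr.G i (Fr.z' i (slam F (w i) ω))) -
      (F.x ω' (c (1 + i)) - eval (Pool.GEN.bt F ω') (Fr.G i (Fr.z' i (slam F (w i) ω)))) -
      (F.x ω (c (1 + i)) - F.x ω' (c (1 + i))) =
      -(eval (Pool.GEN.bt F ω) (Fr.G i (Fr.z' i (slam F (w i) ω))) -
        eval (Pool.GEN.bt F ω') (Fr.G i (Fr.z' i (slam F (w i) ω)))) := by ring
  rw [e1, abs_neg]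
  have h1 := lab_diff ((hF.lab i).deg (Fr.z' i (slam F (w i) ω)))
    ((hF.lab i).dep (Fr.z' i (slam F (w i) ω))) (b := Pool.GEN.bt F ω)
    (b' := Pool.GEN.bt F ω') (by
      show F.t ω = F.t ω'
      unfold Fam.t
      rw [ht])
  have hp : (0 : ℝ) < 2 ^ g := by positivity
  refine (mul_le_mul_of_nonneg_left h1 hp.le).trans ?_
  rw [Finset.mul_sum]
  calc ∑ j ∈ (range (1 + i)).image c, (2 : ℝ) ^ g * (|coeff (Finsupp.single (some j) 1)
        (Fr.G i (Fr.z' i (slam F (w i) ω)))| *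
        |Pool.GEN.bt F ω (some j) - Pool.GEN.bt F ω' (some j)|) ≤
      ∑ _j ∈ (range (1 + i)).image c, (1 : ℝ) := Finset.sum_le_sum fun j hj => by
        obtain ⟨l, hl, rfl⟩ := mem_image.1 hj
        have h2 := hx l (mem_range.1 hl)
        have h3 := hraw (some (c l))
        rw [← mul_assoc]
        calc (2 : ℝ) ^ g * |coeff (Finsupp.single (some (c l)) 1)
              (Fr.G i (Fr.z' i (slam F (w i) ω)))| * |F.x ω (c l) - F.x ω' (c l)| ≤
              2 ^ J * (1 / 2 ^ J) := mul_le_mul h3 h2 (abs_nonneg _) (by positivity)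
          _ = 1 := by field_simp
    _ = ((range (1 + i)).image c).card := by rw [Finset.sum_const, nsmul_eq_mul, mul_one]
    _ ≤ 3 := by
        have h2 : ((range (1 + i)).image c).card ≤ 3 := by
          refine Finset.card_image_le.trans ?_
          rw [card_range]
          have := i.2
          omega
        exact_mod_cast h2

/-- The logarithm of an oscillation. -/
theorem log_osc {a b y : ℝ} (ha : 0 ≤ a) (hb : 0 ≤ b) (hy : 1 ≤ y) :
    Real.log (2 * (a * y + b) + 1) ≤ Real.log y + Real.log (2 * a + 2 * b + 1) := by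
  rw [← Real.log_mul (by linarith) (by positivity)]
  refine Real.log_le_log (by positivity) ?_
  nlinarith

/-- Equal digits. -/
theorem near_x {F : Fam m J} {ω ω' : F.Ω} {i : Fin m} {j : ℕ} (h : F.X j ω i = F.X j ω' i) :
    |F.x ω i - F.x ω' i| ≤ 1 / 2 ^ j := by
  have h1 : ⌊(2 : ℝ) ^ j * F.x ω i⌋ = ⌊(2 : ℝ) ^ j * F.x ω' i⌋ := h
  have h2 := near_of_floor h1
  rw [← mul_sub, abs_mul, abs_of_pos (by positivity : (0 : ℝ) < 2 ^ j)] at h2
  rw [le_div_iff₀ (by positivity), mul_comm]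
  exact h2

/-- The oscillation of the digits. -/
theorem osc_X {F : Fam m J} {ω ω' : F.Ω} {i : Fin m} {j : ℕ} {D : ℝ}
    (h : (2 : ℝ) ^ j * |F.x ω i - F.x ω' i| ≤ D) :
    |(F.X j ω i : ℝ) - F.X j ω' i| ≤ D + 1 := by
  have h1 := Pool.EXW.abs_floor_sub ((2 : ℝ) ^ j * F.x ω i) ((2 : ℝ) ^ j * F.x ω' i)
  rw [← mul_sub, abs_mul, abs_of_pos (by positivity : (0 : ℝ) < 2 ^ j)] at h1
  have h2 : (((⌊(2 : ℝ) ^ j * F.x ω i⌋ - ⌊(2 : ℝ) ^ j * F.x ω' i⌋ : ℤ)) : ℝ) =
      (F.X j ω i : ℝ) - F.X j ω' i := by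
    push_cast
    rfl
  rw [h2] at h1
  linarith

/-- Near integers of near numbers. -/
theorem near_i {a b : ℤ} {x y D : ℝ} (ha : |(a : ℝ) - x| ≤ 2) (hb : |(b : ℝ) - y| ≤ 2)
    (h : |x - y| ≤ D) : |(a : ℝ) - b| ≤ D + 4 := by
  rw [abs_le] at *
  constructor <;> linarith [ha.1, ha.2, hb.1, hb.2, h.1, h.2]

/-- Near numbers of equal integers. -/
theorem near_r {a b : ℤ} {x y : ℝ} (ha : |(a : ℝ) - x| ≤ 2) (hb : |(b : ℝ) - y| ≤ 2)
    (h : a = b) : |x - y| ≤ 4 := by
  rw [h] at ha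
  rw [abs_le] at *
  constructor <;> linarith [ha.1, ha.2, hb.1, hb.2]

end Pool.D117
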