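import Pool.Agent.H17.D1.RwE

/-!
# The digits of the target are not full given the digits of the alive places: `rwU : RwUStmt`
-/

set_option autoImplicit false

namespace Pool.D117

open Finset Real MvPolynomial
open Pool.Agent.H49.Ent Pool.Agent.H32.Dense
open Pool.STK hiding pr2
open Pool.KA Pool.KSAT Pool.K2S Pool.PB Pool.S6C
open Pool.GEN Pool.CHT Pool.CHX Pool.LA91 Pool.RCD Pool.V0F
open Pool.AVG57 (upw upw_slam)
open Pool.UNJ (ceI)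
open Pool.D2F2 (hgp)
open Pool.T4N (Frm FrmP fX fV)
open Pool.OWN68 (CH_exch RawN)
open Pool.D164 (RwUStmt NatO NatE BoxD)

/-- **The digits of the target are not full** given the digits of the alive places. -/
theorem rwU : RwUStmt := by
  intro m D S c sn G s σ hr b o t q Λ φ' _ _ _ hpos hX v₁ xa P₁ P₂ ε R μ h W hε hv₁ hxa hxv hvt
    hP hP₁ hP₂ hμ hh
  have L := hX.lad
  have hΛ : 0 ≤ Λ * q := (abs_nonneg _).trans hP₁
  have hb1 := hX.bw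
  have hw1 := hX.wo
  have ho1 := hX.o1
  have hb0 := L.b0
  have hbv : b ≤ v₁ := by linarith
  have hvo : v₁ ≤ o := by linarith
  obtain ⟨E, rd, ρ', -, hE, -⟩ := hX.lab v₁ hv₁ hbv hvo
  have hsn : ∀ l ≤ 3, sn l v₁ ≤ 1 := fun l hl => by
    obtain ⟨h1, h2, -, -⟩ := hE l hl
    linarith
  obtain ⟨u₁, rdd, -, hch⟩ := L.ch.ch v₁ hv₁
  have hful := hch.ful (h / 12) (by linarith)
  have hl2 : 0 < Real.log 2 := Real.log_pos one_lt_two
  have hl21 : Real.log 2 ≤ 1 := (Real.log_two_lt_d9.trans (by norm_num)).le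
  have hφ := L.φ0
  have hpB : Bas S (fun _ F A => 0 < Pe F.p A) :=
    ⟨1, one_pos, 0, fun J _ F A hA => hpos 1 J F A hA⟩
  by_cases hP20 : 0 ≤ P₂
  swap
  · push Not at hP20
    refine hpB.mono 0 ?_
    intro J _ F A hA w P Fr hF hw hn g r lP hg hW hraw hlP hl0 hgm hg2 hg2' V y y' hy hyc z N Y
      hz hN hY
    have hJ0 : (0 : ℝ) ≤ J := Nat.cast_nonneg J
    have e1 : g 2 = 0 := by
      rw [hg2]
      exact Nat.floor_of_nonpos (mul_nonpos_of_nonpos_of_nonneg hP20.le hJ0)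
    have e2 : r = 0 := by omega
    have e3 : CH (Pool.Agent.H49.Ent.cond F.p A True) N
        (fun ω => (N ω / 2 ^ r, (z ω, (Y ω, (y' (slam F ⌊xa * J⌋₊ ω), F.W ω))))) = 0 := by
      refine CH_eq_zero (isLaw_cond F.isLaw hA).nonneg fun ω ω' _ _ e => ?_
      have e4 : N ω / 2 ^ r = N ω' / 2 ^ r := (Prod.ext_iff.1 e).1
      rw [e2, pow_zero, Int.ediv_one, Int.ediv_one] at e4
      exact e4
    rw [e3, e2, Nat.cast_zero, mul_zero, zero_mul, zero_add]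
    positivity
  -- the row
  obtain ⟨P₀, hP₀⟩ : ∃ P₀, P₀ = max P₁ 0 := ⟨_, rfl⟩
  have hP00 : 0 ≤ P₀ := by rw [hP₀]; exact le_max_right _ _
  have hP01 : P₁ ≤ P₀ := by rw [hP₀]; exact le_max_left _ _
  have hP02 : P₀ ≤ P₂ := by rw [hP₀]; exact max_le hP hP20
  have hrow := hX.row P₁ P₂ hP₁ hP₂ hP (P₀ - P₁) (by linarith) (by linarith)
  obtain ⟨K, hK⟩ : ∃ K, K = 9 * Real.log 31 + |1 - hr| * Real.log 2 := ⟨_, rfl⟩
  obtain ⟨J₀, hJ₀⟩ := Pool.FUL33.bgJ (a := h / 2) (by linarith) K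
  refine ((hrow.and hful).and hpB).mono J₀ ?_
  rintro J hJ F A ⟨⟨r1, f1⟩, hA⟩ w P Fr hF hw ⟨V₁, zn, zn', Gn, kan, aln, ben, gan, pyn, hn⟩ g r
    lP hg hW hraw hlP hl0 hgm hg2 hg2' V y y' hy hyc z N Y hz hN hY
  have hJK := hJ₀ J hJ
  have hJ0 : (0 : ℝ) ≤ J := Nat.cast_nonneg J
  have hq := isLaw_cond F.isLaw hA
  have h0 := hq.nonneg
  obtain ⟨p, hp⟩ : ∃ p, p = Pool.Agent.H49.Ent.cond F.p A True := ⟨_, rfl⟩
  rw [← hp] at hq h0 r1 f1 ⊢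
  have hqA : ∀ ω, 0 < p ω → A ω := fun ω hω => by
    rw [hp] at hω
    exact Pool.NFT33.of_condp hω
  have hvJ : ⌊v₁ * (J : ℝ)⌋₊ ≤ J := Nat.floor_le_of_le (by
    calc v₁ * (J : ℝ) ≤ 1 * J := mul_le_mul_of_nonneg_right (by linarith) hJ0
      _ = J := one_mul _)
  have hxJ : ⌊xa * (J : ℝ)⌋₊ ≤ ⌊v₁ * (J : ℝ)⌋₊ :=
    Nat.floor_le_floor (mul_le_mul_of_nonneg_right hxv hJ0)
  -- the digits of the alive places
  have hgJ : ∀ i : Fin 2, g i.castSucc ≤ J := by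
    intro i
    have h1 := hg i.castSucc
    have h2 : (2 : ℝ) ^ g i.castSucc * 2 ^ ((2 * ε - sn (1 + i) v₁) * J) ≤ 1 := by
      have h3 : (0 : ℝ) ≤ (2 : ℝ) ^ g i.castSucc * 2 ^ ((2 * ε - sn (1 + i) v₁) * J) := by
        positivity
      have h4 : (2 : ℝ) ^ g i.castSucc * (4 * 2 ^ ((2 * ε - sn (1 + i) v₁) * J)) ≤ 1 := h1
      linarith
    rw [← Real.rpow_natCast, ← Real.rpow_add (by norm_num)] at h2
    have h3 : (g i.castSucc : ℝ) + (2 * ε - sn (1 + i) v₁) * J ≤ 0 := by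
      by_contra hcon
      push Not at hcon
      have := Real.one_lt_rpow (x := 2) (by norm_num) hcon
      linarith
    have h4 := hsn (1 + i) (by have := i.2; omega)
    have h5 : sn (1 + i) v₁ * J ≤ 1 * J := mul_le_mul_of_nonneg_right h4 hJ0
    have h6 : 0 ≤ 2 * ε * J := by positivity
    have h7 : (g i.castSucc : ℝ) ≤ J := by linarith
    exact_mod_cast h7
  -- the code
  obtain ⟨U, hU⟩ : ∃ U : LnT F → V₁ × V, U = fun s =>
    (zn' s, y' (upw ⌊xa * (J : ℝ)⌋₊ ⌊v₁ * (J : ℝ)⌋₊ s)) := ⟨_, rfl⟩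
  have hU2 : ∀ ω, (U (slam F ⌊v₁ * (J : ℝ)⌋₊ ω)).2 = y' (slam F ⌊xa * J⌋₊ ω) := fun ω => by
    rw [hU]
    show y' (upw ⌊xa * (J : ℝ)⌋₊ ⌊v₁ * (J : ℝ)⌋₊ (slam F ⌊v₁ * (J : ℝ)⌋₊ ω)) = _
    rw [upw_slam F hxJ hvJ]
  have hU1 : ∀ ω, (U (slam F ⌊v₁ * (J : ℝ)⌋₊ ω)).1 = zn' (slam F ⌊v₁ * J⌋₊ ω) := fun ω => by
    rw [hU]
  have hc3 : ∀ i < 3, ((1 - sn i v₁) - h / 12) * Real.log 2 * J ≤ CH p (fun ω => F.X J ω (c i))
      (fun ω => ((fun l' : Fin i => F.X J ω (c l')), U (slam F ⌊v₁ * J⌋₊ ω), F.W ω)) :=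
    fun i hi => f1 (V₁ × V) (fun x => (zn x, y x)) U (fun ω hω => Prod.ext
      ((hn.cls ω hω).trans (hU1 ω).symm) ((hy ω hω).trans (hU2 ω).symm)) i (Nat.zero_le _) hi
  have hch3 := CH_fin_chain h0 (fun l ω => F.X J ω (c l))
    (fun ω => (U (slam F ⌊v₁ * J⌋₊ ω), F.W ω)) 3
  have hlow : ((1 - sn 0 v₁) - h / 12) * Real.log 2 * J + ((1 - sn 1 v₁) - h / 12) *
      Real.log 2 * J + ((1 - sn 2 v₁) - h / 12) * Real.log 2 * J ≤
      CH p (fun ω (l : Fin 3) => F.X J ω (c l)) (fun ω => (U (slam F ⌊v₁ * J⌋₊ ω), F.W ω)) := by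
    rw [hch3, Finset.sum_range_succ, Finset.sum_range_succ, Finset.sum_range_one]
    exact add_le_add (add_le_add (hc3 0 (by norm_num)) (hc3 1 (by norm_num)))
      (hc3 2 (by norm_num))
  -- the three pieces
  have u1 := up1 (N := N) (Y := Y) (z := z) (r := r) (yc := fun ω => y' (slam F ⌊xa * J⌋₊ ω)) hq
    hqA hF hraw hlP hgJ hyc hz hY
  have u2 := up2 (N := N) (Y := Y) (z := z) (r := r) (yc := fun ω => y' (slam F ⌊xa * J⌋₊ ω)) hq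
    hqA hF hraw hyc hN hX.img hg2'
  have l3 := lo3 (N := N) (Y := Y) (z := z) (r := r) (yc := fun ω => y' (slam F ⌊xa * J⌋₊ ω)) hq
    hqA hε hn hg hW hl0 hz hN hY (X := fun ω (l : Fin 3) => F.X J ω (c l))
    (Uc := fun ω => U (slam F ⌊v₁ * J⌋₊ ω)) (fun ω ω' e => by
      have e1 : U (slam F ⌊v₁ * J⌋₊ ω) = U (slam F ⌊v₁ * J⌋₊ ω') := e
      rw [← hU1, ← hU1, e1]) (fun ω ω' e => by
      have e1 : U (slam F ⌊v₁ * J⌋₊ ω) = U (slam F ⌊v₁ * J⌋₊ ω') := e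
      show y' (slam F ⌊xa * J⌋₊ ω) = y' (slam F ⌊xa * J⌋₊ ω')
      rw [← hU2, ← hU2, e1])
  have ex := CH_exch h0 N (fun ω (l : Fin 3) => F.X J ω (c l))
    (fun ω => (N ω / 2 ^ r, (z ω, (Y ω, (y' (slam F ⌊xa * J⌋₊ ω), F.W ω)))))
  -- the row
  have e1 : P₁ + (P₂ - P₁) = P₂ := by ring
  have e2 : P₁ + (P₀ - P₁) = P₀ := by ring
  have e3 : ⌊P₀ * (J : ℝ)⌋₊ = ⌊P₁ * (J : ℝ)⌋₊ := by
    rcases le_total 0 P₁ with h1 | h1
    · rw [hP₀, max_eq_left h1]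
    · rw [hP₀, max_eq_right h1, zero_mul, Nat.floor_zero]
      exact (Nat.floor_of_nonpos (mul_nonpos_of_nonpos_of_nonneg h1 hJ0)).symm
  rw [e1, e2, e3, ← hg2] at r1
  have f2 := Nat.floor_le (mul_nonneg hP20 hJ0)
  have f3 := Nat.lt_floor_add_one (P₂ * (J : ℝ))
  have f4 := Nat.floor_le (mul_nonneg hP00 hJ0)
  have f5 := Nat.lt_floor_add_one (P₀ * (J : ℝ))
  rw [e3] at f4 f5
  rw [← hg2, hg2'] at f2 f3
  push_cast at f2 f3
  have hr1 : |(P₂ - P₀) * J - r| ≤ 1 := by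
    rw [abs_le]
    constructor <;> linarith
  have hr2 : (1 - hr) * ((P₂ - P₀) * J) ≤ (1 - hr) * r + |1 - hr| := by
    have h1 : (1 - hr) * ((P₂ - P₀) * J - r) ≤ |1 - hr| := by
      calc (1 - hr) * ((P₂ - P₀) * J - r) ≤ |(1 - hr) * ((P₂ - P₀) * J - r)| := le_abs_self _
        _ = |1 - hr| * |(P₂ - P₀) * J - r| := abs_mul _ _
        _ ≤ |1 - hr| * 1 := mul_le_mul_of_nonneg_left hr1 (abs_nonneg _)
        _ = |1 - hr| := mul_one _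
    linarith
  have hr3 : ((1 - hr) * (P₂ - P₁ - (P₀ - P₁)) * Real.log 2 + φ') * J ≤
      (1 - hr) * r * Real.log 2 + |1 - hr| * Real.log 2 + φ' * J := by
    have h1 := mul_le_mul_of_nonneg_right hr2 hl2.le
    have e4 : ((1 - hr) * (P₂ - P₁ - (P₀ - P₁)) * Real.log 2 + φ') * J =
      (1 - hr) * ((P₂ - P₀) * J) * Real.log 2 + φ' * J := by ring
    rw [e4]
    linarith
  -- the numbers
  have g1 : sn 1 v₁ * J ≤ g 0 + μ * J := hgm 0 (by norm_num)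
  have g2 : sn 2 v₁ * J ≤ g 1 + μ * J := hgm 1 (by norm_num)
  have hfin : (((J : ℝ) - lP) + ((J : ℝ) - g 0) + ((J : ℝ) - g 1)) * Real.log 2 -
      (((1 - sn 0 v₁) - h / 12) * Real.log 2 * J + ((1 - sn 1 v₁) - h / 12) *
      Real.log 2 * J + ((1 - sn 2 v₁) - h / 12) * Real.log 2 * J) +
      (lP + (ε - sn 0 v₁) * J) * Real.log 2 ≤ (2 * μ + ε + h / 4) * J := by
    have e4 : (((J : ℝ) - lP) + ((J : ℝ) - g 0) + ((J : ℝ) - g 1)) * Real.log 2 -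
      (((1 - sn 0 v₁) - h / 12) * Real.log 2 * J + ((1 - sn 1 v₁) - h / 12) *
      Real.log 2 * J + ((1 - sn 2 v₁) - h / 12) * Real.log 2 * J) +
      (lP + (ε - sn 0 v₁) * J) * Real.log 2 =
      (sn 1 v₁ * J - g 0 + (sn 2 v₁ * J - g 1) + (ε + h / 4) * J) * Real.log 2 := by ring
    rw [e4]
    have h1 : sn 1 v₁ * J - g 0 + (sn 2 v₁ * J - g 1) + (ε + h / 4) * J ≤
        (2 * μ + ε + h / 4) * J := by linarith
    have h2 : 0 ≤ (2 * μ + ε + h / 4) * J := by positivity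
    calc _ ≤ (2 * μ + ε + h / 4) * J * Real.log 2 := mul_le_mul_of_nonneg_right h1 hl2.le
      _ ≤ (2 * μ + ε + h / 4) * J * 1 := mul_le_mul_of_nonneg_left hl21 h2
      _ = (2 * μ + ε + h / 4) * J := mul_one _
  have hhJ : 0 ≤ h / 4 * J := by positivity
  rw [hK] at hJK
  have e5 : (1 - hr) * r * Real.log 2 + (φ' + 2 * μ + ε + h) * J =
    (1 - hr) * r * Real.log 2 + φ' * J + (2 * μ + ε + h / 4) * J + h / 4 * J + h / 2 * J := by ring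
  rw [e5]
  linarith

end Pool.D117
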